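import Pool.Agent.N198.TB.Def
import Pool.Agent.N993.Cyc

/-!
Box distributions with twisted relations (degrees divisible by 4): definitions.
-/

set_option linter.unusedSectionVars false

namespace Pool.Agent.N198.TF

open Finset Pool.Agent.N993 Pool.Agent.N198.TB

variable {ι : Type} [DecidableEq ι] {D : Dat ι}

/-- the distribution relation with index `q` -/
def Rl (q : ι) (f : D.Pt → ℤ) : Prop :=
  ∀ x : D.Pt, x q = none →
    ∑ u : D.G q, f (Function.update x q (some u)) = f (D.act (D.α q) x) - f (D.act (D.β q) x)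

open Classical in
/-- the joint product of a `T`-system and a `T'`-system over `Q` -/
noncomputable def join (T T' Q : Finset ι) (f g : D.Pt → ℤ) : D.Pt → ℤ := fun x =>
  if ∀ i, i ∉ T → i ∉ T' → i ∉ Q → x i = none then
    ∑ J ∈ (sq Q x).powerset, f (D.act (∏ i ∈ sq Q x \ J, D.β i) (rs (T ∪ J) x)) *
      g (D.act (∏ i ∈ J, D.α i) (rs (T' ∪ (Q \ J)) x))
  else 0

/-- the number of the points with support `R` -/
def wg (D : Dat ι) (R : Finset ι) : ℤ := ∏ i ∈ R, (Fintype.card (D.G i) : ℤ)

/-- Box distributions. -/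
structure Lam [Fintype ι] (T Q : Finset ι) (L : D.Pt → ℤ) : Prop where
  sp : Sp T Q L
  rel : ∀ q ∈ Q, Rl q L
  z0 : ∀ k ∈ T, Z0 k L
  odd : ∀ x, L (D.act D.c x) = (-1) ^ T.card * L x
  val : ∀ x, D.Supp T x → L x = box T x
  norm : ∀ J ⊆ Q, S1 (T ∪ J) L * wg D (T ∪ J) * ((T.card - 1).factorial : ℤ) ≤
    MM D * (2 ^ (T.card + J.card) * ((T.card + J.card - 1).factorial : ℤ))

/-- The data of a family `n i` of odd primes and one power `2 ^ k`, `k ≥ 2`: for `n i = 4` these are
the data `cyc n`. -/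
@[reducible] def cyk {ι : Type} (n : ι → ℕ) [∀ i, NeZero (n i)] : Dat ι where
  G i := (ZMod (n i))ˣ
  grp i := inferInstance
  fin i := inferInstance
  deq i := inferInstance
  α i j := unOf (n i) (n j)
  β i j := if 2 ∣ n i then unOf (n i / 2) (n j) else 1
  c i := -1
  hc i := by rw [neg_mul_neg, one_mul]

end Pool.Agent.N198.TF
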